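import Pool.Agent.X203.NumIdx

namespace Pool.Agent.Results.MP_a8e783_an.DualLarger

open Pool.Agent.X203.NumIdx Filter Topology
open scoped OnePoint

/-- The data of the example: `X` is (isometrically) the space of all continuous `f` on the
one-point compactification of `ℕ` with `f ∞ = Re (f 0)`. -/
structure Model (X : Type*) [NormedAddCommGroup X] [NormedSpace ℝ X] where
  ι : X →ₗᵢ[ℝ] C(OnePoint ℕ, ℂ)
  infty : ∀ x, ι x ∞ = ((ι x ((0 : ℕ) : OnePoint ℕ)).re : ℂ)
  surj : ∀ f : C(OnePoint ℕ, ℂ), f ∞ = ((f ((0 : ℕ) : OnePoint ℕ)).re : ℂ) → ∃ x, ι x = f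

namespace Model

variable {X : Type*} [NormedAddCommGroup X] [NormedSpace ℝ X] (M : Model X)

/-- coordinates -/
noncomputable def v (x : X) (i : ℕ) : ℂ := M.ι x (i : OnePoint ℕ)

theorem v_add (x y : X) (i : ℕ) : M.v (x + y) i = M.v x i + M.v y i := by
  simp [v]

theorem v_sub (x y : X) (i : ℕ) : M.v (x - y) i = M.v x i - M.v y i := by
  simp [v]

theorem v_smul (r : ℝ) (x : X) (i : ℕ) : M.v (r • x) i = r * M.v x i := by
  simp [v]

theorem ext {x y : X} (h : ∀ i, M.v x i = M.v y i) : x = y := by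
  apply M.ι.injective
  ext t
  induction t using OnePoint.rec with
  | infty => rw [M.infty, M.infty]; have := h 0; simp only [v] at this; rw [this]
  | coe k => exact h k

theorem norm_v_le (x : X) (i : ℕ) : ‖M.v x i‖ ≤ ‖x‖ := by
  rw [← M.ι.norm_map x]
  exact (M.ι x).norm_coe_le_norm _

theorem norm_le {x : X} {c : ℝ} (h : ∀ i, ‖M.v x i‖ ≤ c) : ‖x‖ ≤ c := by
  rw [← M.ι.norm_map x]
  have hc : 0 ≤ c := (norm_nonneg _).trans (h 0)
  rw [ContinuousMap.norm_le _ hc]
  intro t
  induction t using OnePoint.rec with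
  | infty =>
    rw [M.infty, Complex.norm_real]
    exact (Complex.abs_re_le_norm _).trans (h 0)
  | coe k => exact h k

theorem tendsto_v (x : X) : Tendsto (fun i => M.v x i) atTop (𝓝 ((M.v x 0).re : ℂ)) := by
  have h1 := M.infty x
  have h2 : Tendsto (fun i : ℕ => (i : OnePoint ℕ)) atTop (𝓝 ∞) := by
    have := OnePoint.tendsto_coe_infty (X := ℕ)
    rwa [coclosedCompact_eq_cocompact, cocompact_eq_cofinite, Nat.cofinite_eq_atTop] at this
  have h3 := ((M.ι x).continuous.tendsto ∞).comp h2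
  rw [h1] at h3
  exact h3

/-- truncated sequences -/
noncomputable def sq (b : ℕ → ℂ) (N : ℕ) (i : ℕ) : ℂ := if i ≤ N then b i else ((b 0).re : ℂ)

theorem sq_tendsto (b : ℕ → ℂ) (N : ℕ) : Tendsto (sq b N) atTop (𝓝 ((b 0).re : ℂ)) := by
  apply tendsto_nhds_of_eventually_eq
  filter_upwards [eventually_gt_atTop N] with i hi
  rw [sq, if_neg (not_le.2 hi)]

theorem exists_el (b : ℕ → ℂ) (N : ℕ) : ∃ x : X, ∀ i, M.v x i = sq b N i := by
  obtain ⟨x, hx⟩ := M.surj (OnePoint.continuousMapMkNat (sq b N) ((b 0).re : ℂ)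
    (sq_tendsto b N)) (by
      show ((b 0).re : ℂ) = ((sq b N 0).re : ℂ)
      rw [sq, if_pos (Nat.zero_le _)])
  refine ⟨x, fun i => ?_⟩
  show M.ι x (i : OnePoint ℕ) = _
  rw [hx]
  rfl

noncomputable def el (b : ℕ → ℂ) (N : ℕ) : X := (M.exists_el b N).choose

theorem v_el (b : ℕ → ℂ) (N : ℕ) (i : ℕ) : M.v (M.el b N) i = sq b N i :=
  (M.exists_el b N).choose_spec i

/-- the element with a single nonzero coordinate `u` at `i + 1` -/
noncomputable def at' (i : ℕ) (u : ℂ) : X := M.el (fun j => if j = i + 1 then u else 0) (i + 1)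

theorem v_at' (i : ℕ) (u : ℂ) (j : ℕ) : M.v (M.at' i u) j = if j = i + 1 then u else 0 := by
  rw [at', v_el, sq]
  by_cases h : j = i + 1
  · simp [h]
  · rw [if_neg h, if_neg (by omega : ¬ (0 = i + 1))]
    simp

/-- the element `(u, Re u, Re u, ...)` -/
noncomputable def cst (u : ℂ) : X := M.el (fun _ => u) 0

theorem v_cst_zero (u : ℂ) : M.v (M.cst u) 0 = u := by
  rw [cst, v_el, sq]; simp

theorem v_cst_succ (u : ℂ) (j : ℕ) : M.v (M.cst u) (j + 1) = (u.re : ℂ) := by
  rw [cst, v_el, sq]; simp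

theorem at'_add (i : ℕ) (u w : ℂ) : M.at' i (u + w) = M.at' i u + M.at' i w := by
  apply M.ext; intro j
  rw [v_add, v_at', v_at', v_at']; split_ifs <;> simp

theorem at'_smul (i : ℕ) (r : ℝ) (u : ℂ) : M.at' i (r * u) = r • M.at' i u := by
  apply M.ext; intro j
  rw [v_smul, v_at', v_at']; split_ifs <;> simp

theorem cst_eq (u : ℂ) : M.cst u = u.re • M.cst 1 + u.im • M.cst Complex.I := by
  apply M.ext; intro j
  rw [v_add, v_smul, v_smul]
  cases j with
  | zero => rw [v_cst_zero, v_cst_zero, v_cst_zero, mul_one, Complex.re_add_im]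
  | succ j => rw [v_cst_succ, v_cst_succ, v_cst_succ]; simp

/-! ### Coordinates of functionals -/

noncomputable def c (φ : X →L[ℝ] ℝ) (i : ℕ) : ℂ :=
  (φ (M.at' i 1) : ℂ) + (φ (M.at' i Complex.I) : ℂ) * Complex.I

theorem apply_at' (φ : X →L[ℝ] ℝ) (i : ℕ) (u : ℂ) :
    φ (M.at' i u) = (starRingEnd ℂ (M.c φ i) * u).re := by
  have h1 : M.at' i u = u.re • M.at' i 1 + u.im • M.at' i Complex.I := by
    rw [← at'_smul, ← at'_smul, ← at'_add, mul_one, Complex.re_add_im]
  conv_lhs => rw [h1]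
  rw [map_add, map_smul, map_smul]
  simp [c, Complex.mul_re]
  ring

/-- sign -/
noncomputable def sg (z : ℂ) : ℂ := if z = 0 then 0 else z / ‖z‖

theorem norm_sg_le (z : ℂ) : ‖sg z‖ ≤ 1 := by
  unfold sg
  split_ifs with h
  · simp
  · rw [norm_div, Complex.norm_real, norm_norm, div_self (norm_ne_zero_iff.2 h)]

theorem conj_sg (z : ℂ) : starRingEnd ℂ z * sg z = ‖z‖ := by
  unfold sg
  split_ifs with h
  · simp [h]
  · have : (‖z‖ : ℂ) ≠ 0 := by exact_mod_cast norm_ne_zero_iff.2 h
    rw [mul_div_assoc', mul_comm, Complex.mul_conj, Complex.normSq_eq_norm_sq]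
    field_simp
    push_cast
    ring

theorem sum_c_le (φ : X →L[ℝ] ℝ) (N : ℕ) : ∑ i ∈ Finset.range N, ‖M.c φ i‖ ≤ ‖φ‖ := by
  have h1 : φ (∑ i ∈ Finset.range N, M.at' i (sg (M.c φ i))) =
      ∑ i ∈ Finset.range N, ‖M.c φ i‖ := by
    rw [map_sum]
    apply Finset.sum_congr rfl
    intro i _
    rw [apply_at', conj_sg, Complex.ofReal_re]
  have h2 : ‖∑ i ∈ Finset.range N, M.at' i (sg (M.c φ i))‖ ≤ 1 := by
    apply M.norm_le
    intro j
    have h3 : M.v (∑ i ∈ Finset.range N, M.at' i (sg (M.c φ i))) j =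
        ∑ i ∈ Finset.range N, M.v (M.at' i (sg (M.c φ i))) j := by
      simp [v]
    rw [h3]
    cases j with
    | zero =>
      rw [Finset.sum_eq_zero]
      · simp
      · intro i _
        rw [v_at', if_neg (by omega)]
    | succ j =>
      have : ∀ i, M.v (M.at' i (sg (M.c φ i))) (j + 1) = if j = i then sg (M.c φ i) else 0 := by
        intro i; rw [v_at']; simp
      simp only [this, Finset.sum_ite_eq]
      split_ifs
      · exact norm_sg_le _
      · simp
  calc ∑ i ∈ Finset.range N, ‖M.c φ i‖ = φ (∑ i ∈ Finset.range N, M.at' i (sg (M.c φ i))) :=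
        h1.symm
    _ ≤ ‖φ (∑ i ∈ Finset.range N, M.at' i (sg (M.c φ i)))‖ := le_abs_self _
    _ ≤ ‖φ‖ * ‖∑ i ∈ Finset.range N, M.at' i (sg (M.c φ i))‖ := φ.le_opNorm _
    _ ≤ ‖φ‖ * 1 := by gcongr
    _ = ‖φ‖ := mul_one _

theorem summable_c (φ : X →L[ℝ] ℝ) : Summable (fun i => ‖M.c φ i‖) :=
  summable_of_sum_range_le (fun _ => norm_nonneg _) (M.sum_c_le φ)

theorem summable_re (φ : X →L[ℝ] ℝ) : Summable (fun i => (M.c φ i).re) :=
  Summable.of_norm_bounded (M.summable_c φ) (fun i => Complex.abs_re_le_norm _)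

theorem c_add (φ ψ : X →L[ℝ] ℝ) (i : ℕ) : M.c (φ + ψ) i = M.c φ i + M.c ψ i := by
  simp [c]; ring

theorem c_smul (r : ℝ) (φ : X →L[ℝ] ℝ) (i : ℕ) : M.c (r • φ) i = r * M.c φ i := by
  simp [c]; ring

/-- the coordinate functions on the dual, as functions -/
noncomputable def a (φ : X →L[ℝ] ℝ) : ℕ → ℂ
  | 0 => ((φ (M.cst 1) - ∑' i, (M.c φ i).re : ℝ) : ℂ) + (φ (M.cst Complex.I) : ℂ) * Complex.I
  | i + 1 => M.c φ i

theorem a_add (φ ψ : X →L[ℝ] ℝ) (i : ℕ) : M.a (φ + ψ) i = M.a φ i + M.a ψ i := by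
  cases i with
  | zero =>
    simp only [a]
    have : ∑' i, (M.c (φ + ψ) i).re = ∑' i, (M.c φ i).re + ∑' i, (M.c ψ i).re := by
      rw [← (M.summable_re φ).tsum_add (M.summable_re ψ)]
      congr 1; ext i; rw [c_add, Complex.add_re]
    rw [this, _root_.add_apply, _root_.add_apply]
    push_cast; ring
  | succ i => exact M.c_add φ ψ i

theorem a_smul (r : ℝ) (φ : X →L[ℝ] ℝ) (i : ℕ) : M.a (r • φ) i = r * M.a φ i := by
  cases i with
  | zero =>
    simp only [a]
    have : ∑' i, (M.c (r • φ) i).re = r * ∑' i, (M.c φ i).re := by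
      rw [← tsum_mul_left]
      congr 1; ext i; rw [c_smul]; simp
    rw [this, _root_.smul_apply, _root_.smul_apply, smul_eq_mul, smul_eq_mul]
    push_cast; ring
  | succ i => exact M.c_smul r φ i

/-- the evaluation formula -/
theorem hasSum_apply (φ : X →L[ℝ] ℝ) (x : X) :
    HasSum (fun i => (starRingEnd ℂ (M.a φ i) * M.v x i).re) (φ x) := by
  set r : ℝ := (M.v x 0).re with hr
  -- approximations
  have hx : Tendsto (fun N => M.cst (M.v x 0) +
      ∑ i ∈ Finset.range N, M.at' i (M.v x (i + 1) - r)) atTop (𝓝 x) := by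
    rw [tendsto_iff_norm_sub_tendsto_zero, Metric.tendsto_atTop]
    intro ε hε
    have h1 := Metric.tendsto_atTop.1 (M.tendsto_v x) (ε / 2) (half_pos hε)
    obtain ⟨N₀, hN₀⟩ := h1
    refine ⟨N₀, fun N hN => ?_⟩
    rw [Real.dist_eq, sub_zero, abs_of_nonneg (norm_nonneg _)]
    refine lt_of_le_of_lt ?_ (half_lt_self hε)
    apply M.norm_le
    intro j
    have h3 : M.v (M.cst (M.v x 0) + ∑ i ∈ Finset.range N, M.at' i (M.v x (i + 1) - r) - x) j =
        M.v (M.cst (M.v x 0)) j +
        ∑ i ∈ Finset.range N, M.v (M.at' i (M.v x (i + 1) - r)) j - M.v x j := by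
      simp [v]
    rw [h3]
    cases j with
    | zero =>
      rw [Finset.sum_eq_zero, v_cst_zero]
      · simp; positivity
      · intro i _
        rw [v_at', if_neg (by omega)]
    | succ j =>
      have : ∀ i, M.v (M.at' i (M.v x (i + 1) - r)) (j + 1) =
          if j = i then (M.v x (i + 1) - r) else 0 := by
        intro i; rw [v_at']; simp
      simp only [this, Finset.sum_ite_eq, v_cst_succ]
      split_ifs with h
      · rw [← hr]
        simp
        positivity
      · rw [Finset.mem_range, not_lt] at h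
        have h4 := hN₀ (j + 1) (by omega)
        rw [dist_comm, dist_eq_norm] at h4
        rw [add_zero]
        exact h4.le
  have h1 : Tendsto (fun N => φ (M.cst (M.v x 0) +
      ∑ i ∈ Finset.range N, M.at' i (M.v x (i + 1) - r))) atTop (𝓝 (φ x)) :=
    (φ.continuous.tendsto x).comp hx
  have hsum1 : Summable (fun i => (starRingEnd ℂ (M.c φ i) * M.v x (i + 1)).re) := by
    apply Summable.of_norm_bounded ((M.summable_c φ).mul_right ‖x‖)
    intro i
    calc ‖(starRingEnd ℂ (M.c φ i) * M.v x (i + 1)).re‖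
        ≤ ‖starRingEnd ℂ (M.c φ i) * M.v x (i + 1)‖ := Complex.abs_re_le_norm _
      _ = ‖M.c φ i‖ * ‖M.v x (i + 1)‖ := by rw [norm_mul, RCLike.norm_conj]
      _ ≤ ‖M.c φ i‖ * ‖x‖ := by gcongr; exact M.norm_v_le _ _
  have hsum2 := (M.summable_re φ).mul_left r
  have h2 : ∀ N, φ (M.cst (M.v x 0) + ∑ i ∈ Finset.range N, M.at' i (M.v x (i + 1) - r)) =
      φ (M.cst (M.v x 0)) +
      ∑ i ∈ Finset.range N, ((starRingEnd ℂ (M.c φ i) * M.v x (i + 1)).re - r * (M.c φ i).re) := by
    intro N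
    rw [map_add, map_sum]
    congr 1
    apply Finset.sum_congr rfl
    intro i _
    rw [apply_at', mul_sub, Complex.sub_re]
    congr 1
    simp [mul_comm]
  simp only [h2] at h1
  have h3 : Tendsto (fun N => φ (M.cst (M.v x 0)) +
      ∑ i ∈ Finset.range N, ((starRingEnd ℂ (M.c φ i) * M.v x (i + 1)).re - r * (M.c φ i).re))
      atTop (𝓝 (φ (M.cst (M.v x 0)) +
        (∑' i, (starRingEnd ℂ (M.c φ i) * M.v x (i + 1)).re - ∑' i, r * (M.c φ i).re))) :=
    tendsto_const_nhds.add ((hsum1.hasSum.sub hsum2.hasSum).tendsto_sum_nat)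
  have h4 := tendsto_nhds_unique h1 h3
  rw [tsum_mul_left] at h4
  have h5 : φ (M.cst (M.v x 0)) = r * φ (M.cst 1) + (M.v x 0).im * φ (M.cst Complex.I) := by
    rw [cst_eq, map_add, map_smul, map_smul, smul_eq_mul, smul_eq_mul]
  have h6 : (starRingEnd ℂ (M.a φ 0) * M.v x 0).re =
      φ (M.cst (M.v x 0)) - r * ∑' i, (M.c φ i).re := by
    rw [h5]
    simp only [a, map_add, map_mul, Complex.conj_ofReal, Complex.conj_I]
    simp [Complex.mul_re]
    ring
  have h7 : HasSum (fun i => (starRingEnd ℂ (M.a φ (i + 1)) * M.v x (i + 1)).re)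
      (∑' i, (starRingEnd ℂ (M.c φ i) * M.v x (i + 1)).re) := hsum1.hasSum
  have h8 := (hasSum_nat_add_iff
    (f := fun i => (starRingEnd ℂ (M.a φ i) * M.v x i).re) 1).1 h7
  rw [Finset.sum_range_one, h6] at h8
  have h9 : φ (M.cst (M.v x 0)) + (∑' i, (starRingEnd ℂ (M.c φ i) * M.v x (i + 1)).re -
      r * ∑' i, (M.c φ i).re) = ∑' i, (starRingEnd ℂ (M.c φ i) * M.v x (i + 1)).re +
      (φ (M.cst (M.v x 0)) - r * ∑' i, (M.c φ i).re) := by ring
  rw [h4, h9]
  exact h8

theorem summable_a (φ : X →L[ℝ] ℝ) : Summable (fun i => ‖M.a φ i‖) :=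
  (summable_nat_add_iff 1).1 (M.summable_c φ)

theorem norm_eq (φ : X →L[ℝ] ℝ) : ‖φ‖ = ∑' i, ‖M.a φ i‖ := by
  apply le_antisymm
  · apply ContinuousLinearMap.opNorm_le_bound _ (tsum_nonneg fun _ => norm_nonneg _)
    intro x
    rw [← (M.hasSum_apply φ x).tsum_eq]
    apply tsum_of_norm_bounded (((M.summable_a φ).hasSum.mul_right ‖x‖))
    intro i
    calc ‖(starRingEnd ℂ (M.a φ i) * M.v x i).re‖
        ≤ ‖starRingEnd ℂ (M.a φ i) * M.v x i‖ := Complex.abs_re_le_norm _
      _ = ‖M.a φ i‖ * ‖M.v x i‖ := by rw [norm_mul, RCLike.norm_conj]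
      _ ≤ ‖M.a φ i‖ * ‖x‖ := by gcongr; exact M.norm_v_le _ _
  · have hN : ∀ N, 2 * ∑ i ∈ Finset.range (N + 1), ‖M.a φ i‖ - ∑' i, ‖M.a φ i‖ ≤ ‖φ‖ := by
      intro N
      set x := M.el (fun i => sg (M.a φ i)) N with hx
      have hx1 : ‖x‖ ≤ 1 := by
        apply M.norm_le
        intro i
        rw [hx, v_el, sq]
        split_ifs
        · exact norm_sg_le _
        · rw [Complex.norm_real]
          exact (Complex.abs_re_le_norm _).trans (norm_sg_le _)
      have h1 := M.hasSum_apply φ x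
      have h2 : HasSum (fun i => (if i ∈ Finset.range (N + 1) then 2 * ‖M.a φ i‖ else 0) -
          ‖M.a φ i‖) (∑ i ∈ Finset.range (N + 1), 2 * ‖M.a φ i‖ - ∑' i, ‖M.a φ i‖) := by
        apply HasSum.sub _ (M.summable_a φ).hasSum
        have h9 := hasSum_sum_of_ne_finset_zero (L := SummationFilter.unconditional ℕ)
          (f := fun i => if i ∈ Finset.range (N + 1) then 2 * ‖M.a φ i‖ else 0)
          (s := Finset.range (N + 1)) (fun b hb => by rw [if_neg hb])
        have h10 : ∑ i ∈ Finset.range (N + 1), 2 * ‖M.a φ i‖ = ∑ i ∈ Finset.range (N + 1),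
            (if i ∈ Finset.range (N + 1) then 2 * ‖M.a φ i‖ else 0) :=
          Finset.sum_congr rfl fun i hi => by rw [if_pos hi]
        rw [h10]
        exact h9
      have h3 : ∑ i ∈ Finset.range (N + 1), 2 * ‖M.a φ i‖ - ∑' i, ‖M.a φ i‖ ≤ φ x := by
        apply hasSum_le _ h2 h1
        intro i
        rw [hx, v_el, sq]
        by_cases h : i ≤ N
        · rw [if_pos h, if_pos (Finset.mem_range.2 (by omega)), conj_sg, Complex.ofReal_re]
          linarith
        · rw [if_neg h, if_neg (by simp; omega)]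
          have h4 : |(starRingEnd ℂ (M.a φ i) * ((sg (M.a φ 0)).re : ℂ)).re| ≤ ‖M.a φ i‖ := by
            calc |(starRingEnd ℂ (M.a φ i) * ((sg (M.a φ 0)).re : ℂ)).re|
                ≤ ‖starRingEnd ℂ (M.a φ i) * ((sg (M.a φ 0)).re : ℂ)‖ :=
                  Complex.abs_re_le_norm _
              _ = ‖M.a φ i‖ * |(sg (M.a φ 0)).re| := by
                  rw [norm_mul, RCLike.norm_conj, Complex.norm_real, Real.norm_eq_abs]
              _ ≤ ‖M.a φ i‖ * 1 := by
                  gcongr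
                  exact (Complex.abs_re_le_norm _).trans (norm_sg_le _)
              _ = _ := mul_one _
          have := neg_le_of_abs_le h4
          linarith
      rw [← Finset.mul_sum] at h3
      refine h3.trans ?_
      calc φ x ≤ ‖φ x‖ := le_abs_self _
        _ ≤ ‖φ‖ * ‖x‖ := φ.le_opNorm x
        _ ≤ ‖φ‖ * 1 := by gcongr
        _ = ‖φ‖ := mul_one _
    have h1 : Tendsto (fun N => 2 * ∑ i ∈ Finset.range (N + 1), ‖M.a φ i‖ - ∑' i, ‖M.a φ i‖)
        atTop (𝓝 (2 * ∑' i, ‖M.a φ i‖ - ∑' i, ‖M.a φ i‖)) := by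
      apply Tendsto.sub_const
      apply Tendsto.const_mul
      exact ((M.summable_a φ).hasSum.tendsto_sum_nat).comp (tendsto_add_atTop_nat 1)
    have h2 := le_of_tendsto' h1 hN
    linarith

/-- functionals built from summable sequences -/
noncomputable def bldL (b : ℕ → ℂ) (hb : Summable (fun i => ‖b i‖)) : X →L[ℝ] ℝ :=
  LinearMap.mkContinuous
    { toFun := fun x => ∑' i, (starRingEnd ℂ (b i) * M.v x i).re
      map_add' := by
        intro x y
        have hs : ∀ z, Summable (fun i => (starRingEnd ℂ (b i) * M.v z i).re) := by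
          intro z
          apply Summable.of_norm_bounded (hb.mul_right ‖z‖)
          intro i
          calc ‖(starRingEnd ℂ (b i) * M.v z i).re‖
              ≤ ‖starRingEnd ℂ (b i) * M.v z i‖ := Complex.abs_re_le_norm _
            _ = ‖b i‖ * ‖M.v z i‖ := by rw [norm_mul, RCLike.norm_conj]
            _ ≤ ‖b i‖ * ‖z‖ := by gcongr; exact M.norm_v_le _ _
        rw [← (hs x).tsum_add (hs y)]
        congr 1; ext i
        rw [v_add, mul_add, Complex.add_re]
      map_smul' := by
        intro r x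
        rw [RingHom.id_apply, smul_eq_mul, ← tsum_mul_left]
        congr 1; ext i
        rw [v_smul]
        simp [Complex.mul_re]
        ring }
    (∑' i, ‖b i‖) (by
      intro x
      rw [← tsum_mul_right]
      apply tsum_of_norm_bounded (hb.mul_right ‖x‖).hasSum
      intro i
      calc ‖(starRingEnd ℂ (b i) * M.v x i).re‖
          ≤ ‖starRingEnd ℂ (b i) * M.v x i‖ := Complex.abs_re_le_norm _
        _ = ‖b i‖ * ‖M.v x i‖ := by rw [norm_mul, RCLike.norm_conj]
        _ ≤ ‖b i‖ * ‖x‖ := by gcongr; exact M.norm_v_le _ _)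

theorem bldL_apply (b : ℕ → ℂ) (hb : Summable (fun i => ‖b i‖)) (x : X) :
    M.bldL b hb x = ∑' i, (starRingEnd ℂ (b i) * M.v x i).re := rfl

theorem a_bldL (b : ℕ → ℂ) (hb : Summable (fun i => ‖b i‖)) (i : ℕ) :
    M.a (M.bldL b hb) i = b i := by
  have hat : ∀ i u, M.bldL b hb (M.at' i u) = (starRingEnd ℂ (b (i + 1)) * u).re := by
    intro i u
    rw [bldL_apply, tsum_eq_single (i + 1)]
    · rw [v_at', if_pos rfl]
    · intro j hj
      rw [v_at', if_neg hj]; simp
  have hc : ∀ i, M.c (M.bldL b hb) i = b (i + 1) := by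
    intro i
    rw [c, hat, hat]
    apply Complex.ext <;> simp
  cases i with
  | succ i => exact hc i
  | zero =>
    have hs : Summable (fun i => (b i).re) :=
      Summable.of_norm_bounded hb (fun i => Complex.abs_re_le_norm _)
    have h1 : M.bldL b hb (M.cst 1) = ∑' i, (b i).re := by
      rw [bldL_apply]
      congr 1; ext i
      cases i with
      | zero => rw [v_cst_zero]; simp
      | succ i => rw [v_cst_succ]; simp
    have h2 : M.bldL b hb (M.cst Complex.I) = (b 0).im := by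
      rw [bldL_apply, tsum_eq_single 0]
      · rw [v_cst_zero]; simp
      · intro j hj
        cases j with
        | zero => exact absurd rfl hj
        | succ j => rw [v_cst_succ]; simp
    simp only [a, hc]
    rw [h1, h2, hs.tsum_eq_zero_add]
    rw [add_sub_cancel_right, Complex.re_add_im]

open Classical in
/-- the dual of the example is an `ℓ₁`-sum of planes -/
noncomputable def coord : L1Coord (X →L[ℝ] ℝ) where
  a i := LinearMap.mkContinuous
    { toFun := fun φ => M.a φ i
      map_add' := fun φ ψ => M.a_add φ ψ i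
      map_smul' := fun r φ => by rw [RingHom.id_apply, M.a_smul, Complex.real_smul] } 1 (by
      intro φ
      rw [one_mul, M.norm_eq φ]
      exact (M.summable_a φ).le_tsum i (fun _ _ => norm_nonneg _))
  bld b := if hb : Summable (fun i => ‖b i‖) then M.bldL b hb else 0
  a_bld b hb i := by
    rw [dif_pos hb]
    exact M.a_bldL b hb i
  hasSum_norm φ := by
    rw [M.norm_eq φ]
    exact (M.summable_a φ).hasSum

/-! ### The operator -/

noncomputable def e0 : C(OnePoint ℕ, ℂ) :=
  OnePoint.continuousMapMkNat (fun j => if j = 0 then 1 else 0) 0 (by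
    apply tendsto_nhds_of_eventually_eq
    filter_upwards [eventually_gt_atTop 0] with i hi
    rw [if_neg (by omega)])

theorem e0_zero : e0 ((0 : ℕ) : OnePoint ℕ) = 1 := rfl

theorem e0_succ (j : ℕ) : e0 ((j + 1 : ℕ) : OnePoint ℕ) = 0 := by
  show (if j + 1 = 0 then (1 : ℂ) else 0) = 0
  simp

theorem e0_infty : e0 ∞ = 0 := rfl

noncomputable def fT (x : X) : C(OnePoint ℕ, ℂ) :=
  Complex.I • (M.ι x - ((M.v x 0).re : ℂ) • (1 : C(OnePoint ℕ, ℂ))) + ((M.v x 0).im : ℂ) • e0

theorem fT_mem (x : X) : M.fT x ∞ = ((M.fT x ((0 : ℕ) : OnePoint ℕ)).re : ℂ) := by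
  have h1 := M.infty x
  have h2 : M.ι x ((0 : ℕ) : OnePoint ℕ) = M.v x 0 := rfl
  simp only [fT, ContinuousMap.add_apply, ContinuousMap.smul_apply, ContinuousMap.sub_apply,
    ContinuousMap.one_apply, e0_zero, e0_infty, h1, h2, smul_eq_mul]
  simp

noncomputable def T0 (x : X) : X := (M.surj (M.fT x) (M.fT_mem x)).choose

theorem ι_T0 (x : X) : M.ι (M.T0 x) = M.fT x := (M.surj (M.fT x) (M.fT_mem x)).choose_spec

theorem v_T0_zero (x : X) : M.v (M.T0 x) 0 = 0 := by
  unfold v
  rw [ι_T0]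
  have h2 : M.ι x ((0 : ℕ) : OnePoint ℕ) = M.v x 0 := rfl
  simp only [fT, ContinuousMap.add_apply, ContinuousMap.smul_apply, ContinuousMap.sub_apply,
    ContinuousMap.one_apply, e0_zero, h2, smul_eq_mul]
  apply Complex.ext <;> simp

theorem v_T0_succ (x : X) (j : ℕ) :
    M.v (M.T0 x) (j + 1) = Complex.I * (M.v x (j + 1) - ((M.v x 0).re : ℂ)) := by
  unfold v
  rw [ι_T0]
  have h2 : M.ι x ((0 : ℕ) : OnePoint ℕ) = M.v x 0 := rfl
  simp only [fT, ContinuousMap.add_apply, ContinuousMap.smul_apply, ContinuousMap.sub_apply,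
    ContinuousMap.one_apply, e0_succ, h2, smul_eq_mul]
  simp [v]

/-- the operator `T x = (0, i (x_j - Re x_0))` -/
noncomputable def T : X →L[ℝ] X :=
  LinearMap.mkContinuous
    { toFun := M.T0
      map_add' := by
        intro x y
        apply M.ext; intro j
        rw [v_add]
        cases j with
        | zero => rw [v_T0_zero, v_T0_zero, v_T0_zero, add_zero]
        | succ j =>
          rw [v_T0_succ, v_T0_succ, v_T0_succ, v_add, v_add, Complex.add_re]
          push_cast; ring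
      map_smul' := by
        intro r x
        apply M.ext; intro j
        rw [RingHom.id_apply, v_smul]
        cases j with
        | zero => rw [v_T0_zero, v_T0_zero, mul_zero]
        | succ j =>
          rw [v_T0_succ, v_T0_succ, v_smul, v_smul]
          simp
          ring }
    2 (by
      intro x
      apply M.norm_le
      intro j
      show ‖M.v (M.T0 x) j‖ ≤ 2 * ‖x‖
      cases j with
      | zero => rw [v_T0_zero, norm_zero]; positivity
      | succ j =>
        rw [v_T0_succ, norm_mul, Complex.norm_I, one_mul]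
        refine (norm_sub_le _ _).trans ?_
        rw [Complex.norm_real, Real.norm_eq_abs]
        have h1 := M.norm_v_le x (j + 1)
        have h2 := (Complex.abs_re_le_norm (M.v x 0)).trans (M.norm_v_le x 0)
        linarith)

theorem v_T_zero (x : X) : M.v (M.T x) 0 = 0 := M.v_T0_zero x

theorem v_T_succ (x : X) (j : ℕ) :
    M.v (M.T x) (j + 1) = Complex.I * (M.v x (j + 1) - ((M.v x 0).re : ℂ)) := M.v_T0_succ x j

theorem numRadius_T [Nontrivial X] : numRadius M.T ≤ 1 := by
  apply numRadius_le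
  intro x f hx hf hfx
  have hv1 : ∀ i, ‖M.v x i‖ ≤ 1 := fun i => (M.norm_v_le x i).trans hx.le
  have h1 := M.hasSum_apply f x
  rw [hfx] at h1
  have h2 : HasSum (fun i => ‖M.a f i‖) 1 := by
    have := (M.summable_a f).hasSum
    rwa [← M.norm_eq f, hf] at this
  have hb : ∀ i, ‖starRingEnd ℂ (M.a f i) * M.v x i‖ ≤ ‖M.a f i‖ := by
    intro i
    rw [norm_mul, RCLike.norm_conj]
    nlinarith [norm_nonneg (M.a f i), hv1 i]
  have h3 : HasSum (fun i => ‖M.a f i‖ - (starRingEnd ℂ (M.a f i) * M.v x i).re) 0 := by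
    simpa using h2.sub h1
  have h4 := (hasSum_zero_iff_of_nonneg (fun i => by
    have := (Complex.re_le_norm (starRingEnd ℂ (M.a f i) * M.v x i)).trans (hb i)
    simpa using this)).1 h3
  have him : ∀ i, (starRingEnd ℂ (M.a f i) * M.v x i).im = 0 := by
    intro i
    have h5 := congrFun h4 i
    simp only [Pi.zero_apply] at h5
    have h6 := hb i
    have h7 := Complex.normSq_eq_norm_sq (starRingEnd ℂ (M.a f i) * M.v x i)
    rw [Complex.normSq_apply] at h7
    have h8 : ‖M.a f i‖ = (starRingEnd ℂ (M.a f i) * M.v x i).re := by linarith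
    have h9 : ‖starRingEnd ℂ (M.a f i) * M.v x i‖ ^ 2 ≤ ‖M.a f i‖ ^ 2 := by gcongr
    rw [h8] at h9
    have h10 : (starRingEnd ℂ (M.a f i) * M.v x i).im ^ 2 ≤ 0 := by nlinarith
    exact pow_eq_zero_iff (two_ne_zero) |>.1 (le_antisymm h10 (sq_nonneg _))
  have h5 := M.hasSum_apply f (M.T x)
  rw [← h5.tsum_eq, ← Real.norm_eq_abs]
  apply tsum_of_norm_bounded h2
  intro i
  cases i with
  | zero => rw [v_T_zero]; simp
  | succ j =>
    rw [v_T_succ, show starRingEnd ℂ (M.a f (j + 1)) *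
      (Complex.I * (M.v x (j + 1) - ((M.v x 0).re : ℂ))) =
      Complex.I * (starRingEnd ℂ (M.a f (j + 1)) * M.v x (j + 1)) -
      ((M.v x 0).re : ℂ) * (starRingEnd ℂ (M.a f (j + 1)) * Complex.I) by ring,
      Complex.sub_re]
    have h6 : (Complex.I * (starRingEnd ℂ (M.a f (j + 1)) * M.v x (j + 1))).re = 0 := by
      rw [Complex.I_mul_re, him, neg_zero]
    rw [h6, zero_sub, norm_neg, Complex.re_ofReal_mul, norm_mul]
    have h7 : ‖(M.v x 0).re‖ ≤ 1 := (Complex.abs_re_le_norm _).trans (hv1 0)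
    have h8 : ‖(starRingEnd ℂ (M.a f (j + 1)) * Complex.I).re‖ ≤ ‖M.a f (j + 1)‖ := by
      refine (Complex.abs_re_le_norm _).trans ?_
      rw [norm_mul, RCLike.norm_conj, Complex.norm_I, mul_one]
    nlinarith [norm_nonneg (M.a f (j + 1)), norm_nonneg (M.v x 0).re,
      norm_nonneg (starRingEnd ℂ (M.a f (j + 1)) * Complex.I).re]

/-- Skew-hermitian operators. -/
theorem skew {S : X →L[ℝ] X} (hS : numRadius S = 0) (x : X) (hx : ‖x‖ ≤ 1) (i : ℕ)
    (hu : ‖M.v x i‖ = 1) : (starRingEnd ℂ (M.v x i) * M.v (S x) i).re = 0 := by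
  set u := M.v x i with hu'
  let L : X →L[ℝ] ℝ := LinearMap.mkContinuous
    { toFun := fun y => (starRingEnd ℂ u * M.v y i).re
      map_add' := by intro y z; rw [v_add, mul_add, Complex.add_re]
      map_smul' := by
        intro r y
        rw [v_smul, RingHom.id_apply]
        simp [Complex.mul_re]
        ring } 1 (by
      intro y
      rw [one_mul]
      refine (Complex.abs_re_le_norm _).trans ?_
      rw [norm_mul, RCLike.norm_conj, hu, one_mul]
      exact M.norm_v_le y i)
  have hLx : L x = 1 := by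
    show (starRingEnd ℂ u * M.v x i).re = 1
    rw [← hu', mul_comm, Complex.mul_conj, Complex.normSq_eq_norm_sq, hu]
    simp
  have hx1 : ‖x‖ = 1 := le_antisymm hx (hu ▸ M.norm_v_le x i)
  have hL1 : ‖L‖ = 1 := by
    apply le_antisymm (LinearMap.mkContinuous_norm_le _ zero_le_one _)
    calc (1 : ℝ) = L x := hLx.symm
      _ ≤ ‖L x‖ := le_abs_self _
      _ ≤ ‖L‖ * ‖x‖ := L.le_opNorm _
      _ = ‖L‖ := by rw [hx1, mul_one]
  have := le_numRadius S hx1 hL1 hLx
  rw [hS] at this
  exact abs_nonpos_iff.1 this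

theorem two_le [Nontrivial X] {S : X →L[ℝ] X} (hS : numRadius S = 0) : 2 ≤ ‖M.T - S‖ := by
  -- `S e` tends to zero
  set e := M.cst 1 with he
  have hve : ∀ j, M.v e j = 1 := by
    intro j
    cases j with
    | zero => rw [he, v_cst_zero]
    | succ j => rw [he, v_cst_succ]; simp
  have hne : ‖e‖ ≤ 1 := M.norm_le (fun i => by rw [hve]; simp)
  have hre : ∀ j, (M.v (S e) j).re = 0 := by
    intro j
    have := M.skew hS e hne j (by rw [hve]; simp)
    rw [hve] at this
    simpa using this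
  have hlim : Tendsto (fun j => ‖M.v (S e) (j + 1)‖) atTop (𝓝 0) := by
    have h1 := M.tendsto_v (S e)
    rw [hre 0] at h1
    have h2 := (h1.comp (tendsto_add_atTop_nat 1)).norm
    simpa using h2
  -- the off-diagonal part
  have hy : ∀ i, M.v (S (e - M.at' i 1)) (i + 1) = 0 := by
    intro i
    set y := e - M.at' i 1 with hy
    have hvy : ∀ j, M.v y j = if j = i + 1 then 0 else 1 := by
      intro j
      rw [hy, v_sub, hve, v_at']
      split_ifs <;> simp
    have key : ∀ u : ℂ, ‖u‖ = 1 → (starRingEnd ℂ u * M.v (S y) (i + 1)).re = 0 := by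
      intro u hu
      have h1 : ∀ σ : ℝ, |σ| = 1 →
          (starRingEnd ℂ u * (M.v (S (M.at' i u)) (i + 1) + σ * M.v (S y) (i + 1))).re = 0 := by
        intro σ hσ
        have hvx : ∀ j, M.v (M.at' i u + σ • y) j = if j = i + 1 then u else (σ : ℂ) := by
          intro j
          rw [v_add, v_smul, v_at', hvy]
          split_ifs <;> simp
        have h2 := M.skew hS (M.at' i u + σ • y) (M.norm_le (fun j => by
          rw [hvx]
          split_ifs
          · exact hu.le
          · rw [Complex.norm_real, Real.norm_eq_abs, hσ])) (i + 1) (by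
            rw [hvx, if_pos rfl]; exact hu)
        rw [hvx, if_pos rfl, map_add, map_smul, v_add, v_smul] at h2
        exact h2
      have h3 := h1 1 (by simp)
      have h4 := h1 (-1) (by simp)
      rw [mul_add, Complex.add_re] at h3 h4
      simp only [Complex.ofReal_one, one_mul, Complex.ofReal_neg, neg_mul, mul_neg,
        Complex.neg_re] at h3 h4
      linarith
    have k1 := key 1 (by simp)
    have k2 := key Complex.I (by simp)
    apply Complex.ext
    · simpa using k1
    · simpa using k2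
  have hmain : ∀ i, 2 - ‖M.v (S e) (i + 1)‖ ≤ ‖M.T - S‖ := by
    intro i
    set x := e - (2 : ℝ) • M.at' i 1 with hx
    have hvx : ∀ j, M.v x j = if j = i + 1 then -1 else 1 := by
      intro j
      rw [hx, v_sub, v_smul, hve, v_at']
      split_ifs
      · push_cast; ring
      · simp
    have hx1 : ‖x‖ ≤ 1 := M.norm_le (fun j => by rw [hvx]; split_ifs <;> simp)
    have hSx : M.v (S x) (i + 1) = - M.v (S e) (i + 1) := by
      have h1 := hy i
      rw [map_sub, v_sub, sub_eq_zero] at h1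
      rw [hx, map_sub, map_smul, v_sub, v_smul, ← h1]
      push_cast; ring
    have hTx : M.v (M.T x) (i + 1) = -2 * Complex.I := by
      rw [v_T_succ, hvx, hvx, if_pos rfl, if_neg (by omega)]
      simp; ring
    have h2 : M.v ((M.T - S) x) (i + 1) = -2 * Complex.I + M.v (S e) (i + 1) := by
      rw [_root_.sub_apply, v_sub, hTx, hSx]; ring
    have h3 : 2 - ‖M.v (S e) (i + 1)‖ ≤ ‖M.v ((M.T - S) x) (i + 1)‖ := by
      rw [h2]
      have h4 : ‖(-2 * Complex.I : ℂ)‖ = 2 := by simp
      have h5 := norm_sub_norm_le (-2 * Complex.I : ℂ) (-M.v (S e) (i + 1))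
      rw [norm_neg, h4, sub_neg_eq_add] at h5
      exact h5
    calc 2 - ‖M.v (S e) (i + 1)‖ ≤ ‖M.v ((M.T - S) x) (i + 1)‖ := h3
      _ ≤ ‖(M.T - S) x‖ := M.norm_v_le _ _
      _ ≤ ‖M.T - S‖ * ‖x‖ := ContinuousLinearMap.le_opNorm _ _
      _ ≤ ‖M.T - S‖ * 1 := by gcongr
      _ = ‖M.T - S‖ := mul_one _
  have h1 : Tendsto (fun i => 2 - ‖M.v (S e) (i + 1)‖) atTop (𝓝 (2 - 0)) :=
    tendsto_const_nhds.sub hlim
  rw [sub_zero] at h1
  exact le_of_tendsto' h1 hmain

include M in
theorem secondIndex_le [Nontrivial X] : secondIndex X ≤ 1 / 2 := by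
  refine csSup_le ⟨0, le_rfl, fun T => by rw [zero_mul]; exact numRadius_nonneg T⟩ ?_
  rintro k ⟨hk, h⟩
  have h1 := h M.T
  have h2 := M.numRadius_T
  have h3 : 2 ≤ quotNorm M.T := by
    refine le_csInf ⟨_, 0, numRadius_zero, rfl⟩ ?_
    rintro t ⟨S, hS, rfl⟩
    exact M.two_le hS
  nlinarith

end Model

/-- The subspace of `C(OnePoint ℕ, ℂ)` of all `f` with `f ∞ = Re (f 0)`. -/
def XS : Submodule ℝ C(OnePoint ℕ, ℂ) where
  carrier := {f | f ∞ = ((f ((0 : ℕ) : OnePoint ℕ)).re : ℂ)}
  add_mem' := by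
    intro f g hf hg
    simp only [Set.mem_ofPred_eq] at *
    rw [ContinuousMap.add_apply, hf, hg, ContinuousMap.add_apply, Complex.add_re]
    push_cast; rfl
  zero_mem' := by simp
  smul_mem' := by
    intro r f hf
    simp only [Set.mem_ofPred_eq] at *
    rw [ContinuousMap.smul_apply, hf, ContinuousMap.smul_apply]
    simp

theorem isClosed_XS : IsClosed (XS : Set C(OnePoint ℕ, ℂ)) := by
  apply isClosed_eq (continuous_eval_const _)
  exact Complex.continuous_ofReal.comp (Complex.continuous_re.comp (continuous_eval_const _))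

noncomputable def model : Model XS where
  ι := XS.subtypeₗᵢ
  infty x := x.2
  surj f hf := ⟨⟨f, hf⟩, rfl⟩

/-- There is a real Banach space `X` with `n'(X) ≤ 1/2` and `n'(X*) ≥ 1/√2`. -/
theorem result : ∃ (X : Type) (_ : NormedAddCommGroup X) (_ : NormedSpace ℝ X)
    (_ : CompleteSpace X), secondIndex X ≤ 1 / 2 ∧ 1 / Real.sqrt 2 ≤ secondIndex (X →L[ℝ] ℝ) := by
  have hnt : Nontrivial XS := by
    refine ⟨⟨0, model.cst 1, fun h => ?_⟩⟩
    have h1 := model.v_cst_zero 1
    rw [← h] at h1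
    simp [Model.v] at h1
  obtain ⟨x, f, -, hf, -⟩ := exists_pair (X := XS)
  have hnt2 : Nontrivial (XS →L[ℝ] ℝ) := ⟨⟨f, 0, fun h => by rw [h] at hf; simp at hf⟩⟩
  exact ⟨XS, inferInstance, inferInstance, isClosed_XS.completeSpace_coe,
    model.secondIndex_le, model.coord.secondIndex_ge⟩

end Pool.Agent.Results.MP_a8e783_an.DualLarger
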